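import Pool.Agent.H78.STN.Stmts

/-!
Row NLN: exact forms.
-/

set_option autoImplicit false

open Polynomial

namespace Pool.STN

lemma nln_mono (j : ℕ) (c : ℚ) (s : ℤ) :
    X * derivative (monomial j c) + C (s : ℚ) * monomial j c =
      monomial j (c * ((j : ℚ) + s)) := by
  rw [derivative_monomial, C_mul_monomial]
  cases j with
  | zero =>
    rw [Nat.cast_zero, mul_zero, map_zero, mul_zero, zero_add, zero_add, mul_comm]
  | succ j =>
    rw [X_mul_monomial, Nat.add_sub_cancel, ← map_add]
    congr 1
    ring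

theorem NLN_thm (h1 : NADStmt) : NLNStmt := by
  intro u v A s
  induction A using Polynomial.induction_on' with
  | add p q hp hq =>
    have e : X * derivative (p + q) + C (s : ℚ) * (p + q) =
        (X * derivative p + C (s : ℚ) * p) + (X * derivative q + C (s : ℚ) * q) := by
      rw [derivative_add]
      ring
    rw [e, h1.1, hp, hq, eval_add, eval_add, eval_add]
    ring
  | monomial j c =>
    have hs : ∀ d : ℚ, Nn u v (monomial j d) (s - 1) = d * ph u v ((j : ℤ) + s) := by
      intro d
      unfold Nn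
      rw [sum_monomial_index _ _ (by rw [zero_mul])]
      congr 2
      ring
    rw [nln_mono, hs, eval_monomial, eval_monomial, eval_monomial, ph]
    have e6 : (6 : ℚ) ^ ((j : ℤ) + s) = 6 ^ j * 6 ^ s := by
      rw [zpow_add₀ (by norm_num), zpow_natCast]
    have e8 : (8 : ℚ) ^ ((j : ℤ) + s) = 8 ^ j * 8 ^ s := by
      rw [zpow_add₀ (by norm_num), zpow_natCast]
    have e9 : (9 : ℚ) ^ ((j : ℤ) + s) = 9 ^ j * 9 ^ s := by
      rw [zpow_add₀ (by norm_num), zpow_natCast]
    by_cases h0 : (j : ℤ) + s = 0
    · rw [h0, zpow_zero] at e6 e8 e9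
      have h0' : (j : ℚ) + s = 0 := by exact_mod_cast h0
      rw [h0', mul_zero, zero_mul]
      linear_combination (-(u : ℚ) * c) * e6 + ((u : ℚ) - v) * c * e8 + (v : ℚ) * c * e9
    · have h0' : (j : ℚ) + s ≠ 0 := by exact_mod_cast h0
      rw [e6, e8, e9]
      push_cast
      field_simp

end Pool.STN
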